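import Pool.Agent.TH630.Tor.TorusFin

/-!
# The `L²`-torsions of normal coverings of a closed aspherical `3`-manifold need not converge

`G = Heis × ℤ` is the product of the discrete Heisenberg group and an infinite cyclic group. The
normal subgroups are `N_0 = G` and `N_i = Γ_i × 1`, `i ≥ 1`, with a chain of normal subgroups `Γ_i`
of finite index of the Heisenberg group.

The manifold `M` is the mapping torus of a homeomorphism of the closed orientable surface of genus
four. Its fundamental group is generated by `x_0, …, x_7` and `s`, with the relators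
`s f(x_j) s⁻¹ x_j⁻¹` and `r = [x_0, x_1] [x_2, x_3] [x_4, x_5] [x_6, x_7]`, where `f` is an
automorphism of the free group which fixes `r`; by the theorem of Dehn, Nielsen and Baer it is
induced by an orientation preserving homeomorphism of the surface. The homomorphism `φ` from `π_1 M`
onto `G` maps `x_0` to `t⁻¹`, `x_2` to `u⁻¹`, the other `x_j` to the identity and `s` to the generator
of `ℤ`. The chain complex of the `G`-cover, with one `0`-cell, `1`-cells `x_j, s`, `2`-cells
`s × x_j` and `r`, and one `3`-cell `s × r`, is `(torusCx f hf φ h).toCx`: its boundary matrices are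
given by the generators, by the Fox derivatives of the relators, and by
`∂ (s × r) = (s - 1) r - ∑ (∂r/∂x_j) (s × x_j)`.

The automorphism is composed of slides and point pushing type automorphisms such that its Jacobian
contains `w = 16 (t - u t)`. At the level `i` the torsion is minus the sum of the logarithmic Mahler
measures of the determinants of `1 - z² ± z w` over the finite group `Heis / Γ_i`, divided by its
order. These numbers do not converge.
-/

namespace Pool.Agent.Results.MP_570070_gt.FiberedThreeManifold

open Pool.Agent.TH630.Tor Pool.Agent.Helper993 Pool.Agent.Helper993.HeisDet Filter Topology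

theorem result : ∃ (f : FreeGroup (Fin (2 * 4)) ≃* FreeGroup (Fin (2 * 4)))
    (hf : f (surfaceRel 4) = surfaceRel 4)
    (φ : FreeGroup (Fin (2 * 4 + 1)) →* Heis ℤ × Multiplicative ℤ)
    (h : ∀ j, φ (torusRel f j) = 1)
    (N : ℕ → Subgroup (Heis ℤ × Multiplicative ℤ)) (_ : ∀ i, (N i).Normal),
    N 0 = ⊤ ∧ Antitone N ∧ ⨅ i, N i = ⊥ ∧ Function.Surjective φ ∧
    (torusCx f hf φ h).toCx.DetL2Acyclic ∧
    (∀ i, 1 ≤ i → ((torusCx f hf φ h).toCx.quot (N i)).DetL2Acyclic) ∧
    (∀ i n, 0 < FK.fkDet (((torusCx f hf φ h).toCx.quot (N i)).laplacian n)) ∧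
    ∀ L : ℝ, ¬ Tendsto (fun i => ((torusCx f hf φ h).toCx.quot (N i)).l2torsion) atTop (𝓝 L) :=
  ⟨f8', f8'_rel, φ9, φ9_rel, chainZ, chainZ_normal, chainZ_zero, chainZ_anti, chainZ_inf, φ9_surj,
    acyclic_X3, fun i hi => (level_X3 i hi).1, pos_X3, no_limit_X3⟩

end Pool.Agent.Results.MP_570070_gt.FiberedThreeManifold
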